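import Mathlib

/-!
# A solution of `2 ^ (n - 2) ≡ 1 (mod n)` ending in the digit 9

`n = 10915386649 = 233 * 727 * 64439` satisfies `2 ^ (n - 2) ≡ 1 (mod n)` and ends in `9`.
Indeed `2 ^ 3509 ≡ 1 (mod n)` and `3509 = 11 ^ 2 * 29` divides `n - 2`.
-/

set_option autoImplicit false
set_option exponentiation.threshold 4000

namespace Pool.Agent.Results.MP_aad82b_nt.LastDigitNine

theorem pow_aux (N a k : ℕ) (h : 2 ^ a ≡ 1 [MOD N]) (n : ℕ) (hn : n - 2 = a * k) :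
    2 ^ (n - 2) ≡ 1 [MOD N] := by
  rw [hn, pow_mul]
  have h3 := h.pow k
  rwa [one_pow] at h3

/-- There is an integer `n ≥ 2` with `2 ^ (n - 2) ≡ 1 (mod n)` whose last decimal digit is `9`,
namely `n = 10915386649`. -/
theorem result : ∃ n : ℕ, n = 10915386649 ∧ 2 ≤ n ∧ 2 ^ (n - 2) ≡ 1 [MOD n] ∧ n % 10 = 9 := by
  have h1 : 2 ^ 3509 ≡ 1 [MOD 10915386649] := by
    unfold Nat.ModEq
    norm_num
  refine ⟨10915386649, rfl, by norm_num, pow_aux _ 3509 3110683 h1 _ (by norm_num), by norm_num⟩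

end Pool.Agent.Results.MP_aad82b_nt.LastDigitNine
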